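import Mathlib
import Pool.Agent.H.MP_55c50e_an.Main

namespace Pool.Agent.Results.MP_55c50e_an.NotComplete

open Filter Topology Pool.Agent.H.MP_55c50e_an

def InLp (p : ℝ) (x : ℕ → ℝ) : Prop := Summable fun j => |x j| ^ p

def OrderConv (p : ℝ) (d : ℕ → ℕ → ℝ) (l : ℕ → ℝ) : Prop :=
  ∃ z : ℕ → ℕ → ℝ, (∀ m, InLp p (z m)) ∧ (∀ m, 0 ≤ z m) ∧ Antitone z ∧
    (∀ w, InLp p w → (∀ m, w ≤ z m) → w ≤ 0) ∧
    ∃ N : ℕ → ℕ, ∀ m k, N m ≤ k → |d k - l| ≤ z m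

theorem result (p : ℝ) (hp : 1 < p) :
    ∃ x : ℕ → ℕ → ℝ, (∀ n, InLp p (x n)) ∧
      (∀ n : ℕ → ℕ, StrictMono n → OrderConv p (fun k => x (n (k + 1)) - x (n k)) 0) ∧
      (¬ ∃ l, InLp p l ∧ OrderConv p x l) ∧
      ¬ ∃ y, InLp p y ∧ ∀ n, |x n| ≤ y := by
  have hp0 : 0 < p := by linarith
  obtain ⟨e⟩ : Nonempty (ℕ × ℕ ≃ ℕ) := ⟨Nat.pairEquiv⟩
  have tr : ∀ f : ℕ × ℕ → ℝ, Summable f ↔ Summable fun j : ℕ => f (e.symm j) :=
    fun f => (e.symm.summable_iff (f := f)).symm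
  have nb : ∀ y : ℕ → ℝ, InLp p y → ∀ N : ℕ,
      (∀ n, N ≤ n → ∀ j, |X p (tt n) (e.symm j)| ≤ y j) → False := by
    intro y hy N h
    refine unbdd p hp (fun j => y (e j)) ?_ N ?_
    · rw [tr]
      simp only [Equiv.apply_symm_apply]
      exact hy
    · intro n hn j
      have := h n hn (e j)
      rwa [Equiv.symm_apply_apply] at this
  refine ⟨fun n j => X p (tt n) (e.symm j), ?_, ?_, ?_, ?_⟩
  · intro n
    obtain ⟨C, -, H⟩ := holder p hp
    have := (H (tt n) (-2)).1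
    simp only [X_neg, sub_zero] at this
    exact (tr _).1 this
  · intro n hn
    obtain ⟨z, h1, h2, h3, h4, h5⟩ := tails p hp0
      (fun k j => X p (tt (n (k + 1))) j - X p (tt (n k)) j) (cauchy p hp n hn)
    refine ⟨fun m j => z m (e.symm j), fun m => (tr _).1 (h1 m),
      fun m j => h2 m _, fun a b hab j => h3 hab _, ?_, id, ?_⟩
    · intro w _ hw j
      exact ge_of_tendsto' (h4 (e.symm j)) fun m => hw m j
    · intro m k hk j
      simpa using h5 m k hk (e.symm j)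
  · rintro ⟨l, hl, z, h1, -, -, -, N, hN⟩
    refine nb (fun j => |l j| + |z 0 j|) (lp_add p hp0 l (z 0) hl (h1 0)) (N 0) ?_
    intro n hn j
    have h2 : |X p (tt n) (e.symm j) - l j| ≤ z 0 j := hN 0 n hn j
    have h3 := abs_sub_abs_le_abs_sub (X p (tt n) (e.symm j)) (l j)
    have h4 := le_abs_self (z 0 j)
    linarith
  · rintro ⟨y, hy, h⟩
    exact nb y hy 0 fun n _ j => h n j

end Pool.Agent.Results.MP_55c50e_an.NotComplete
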